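import Pool.Agent.Lib.MP_902cec_al.Final

set_option autoImplicit false

namespace Pool.Agent.Results.MP_902cec_al.Counter

open Pool.Agent.Lib.MP_902cec_al

open Classical in
/-- A finite solvable group `G` and a unit `u` of `ℤG` of augmentation one with `u ^ 30 = 1`, whose
coefficients at the elements `g` with `g ^ 2 = 1` add up to `2`, and which, for every group `H`
containing `G`, is not conjugate by a unit of `ℚH` to any element of `H`. -/
theorem result :
    ∃ (G : Type) (_ : Group G) (_ : Finite G) (_ : Group.IsSolvable G)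
      (u : (MonoidAlgebra ℤ G)ˣ),
      u ^ 30 = 1 ∧
      ((u : MonoidAlgebra ℤ G).coeff.sum fun _ a => a) = 1 ∧
      ((u : MonoidAlgebra ℤ G).coeff.sum fun g a => if g ^ 2 = 1 then a else 0) = 2 ∧
      ∀ (H : Type) [Group H] (f : G →* H), Function.Injective f →
        ∀ (w : (MonoidAlgebra ℚ H)ˣ) (h : H),
          ((w⁻¹ : (MonoidAlgebra ℚ H)ˣ) : MonoidAlgebra ℚ H) *
              MonoidAlgebra.mapDomainRingHom ℚ f
                (MonoidAlgebra.mapRingHom G (Int.castRingHom ℚ) (u : MonoidAlgebra ℤ G)) *
              (w : MonoidAlgebra ℚ H) ≠ MonoidAlgebra.single h 1 := by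
  obtain ⟨G, _, _, _, u, h30, h1, h2⟩ := exists_unit
  refine ⟨G, inferInstance, inferInstance, inferInstance, u, h30, ?_, ?_, fun H _ f hf w h => ?_⟩
  · have := cf_inc (fun _ => 1) (u : MonoidAlgebra ℤ G)
    simp only [Int.cast_one, mul_one] at this
    rw [h1] at this
    exact_mod_cast this.symm
  · have := cf_inc (fun g => if g ^ 2 = 1 then 1 else 0) (u : MonoidAlgebra ℤ G)
    have e : (fun g : G => (((if g ^ 2 = 1 then 1 else 0 : ℤ) : ℤ) : ℚ)) = ind2 := by
      funext g
      by_cases hg : g ^ 2 = 1
      · rw [if_pos hg, ind2_pos hg, Int.cast_one]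
      · rw [if_neg hg, ind2_neg hg, Int.cast_zero]
    rw [e, h2] at this
    simp only [mul_ite, mul_one, mul_zero] at this
    exact_mod_cast this.symm
  · exact not_conj f hf ((MonoidAlgebra.mapDomainRingHom ℚ f).comp (inc G))
      (fun g => by simp [inc_single]) u h2 _ _ w.mul_inv h

end Pool.Agent.Results.MP_902cec_al.Counter
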